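import Mathlib
import Pool.Agent.W90.ZT.Core
import Pool.Agent.H707R3.WeilTower

/-!
The bound for the splitting fields of the numerators of the zeta functions of the layers of a
`ℤ_p`-tower.
-/

set_option autoImplicit false

open PowerSeries IntermediateField

namespace Pool.Agent.W90.ZT

open Pool.Agent.H387R3.ZT Pool.Agent.H707R3 Pool.Agent.H412R3.ZT

theorem named_bdd {p : ℕ} [Fact p.Prime] {k F E : Type} [Field k] [Finite k] [CharP k p]
    [Field F] [Algebra k F] [Field E] [Algebra F E] [Algebra k E] [IsScalarTower k F E]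
    (h : IsZpTower k F E p) :
    ∃ D : ℕ, 0 < D ∧ ∃ N : ℕ, ∀ n, N ≤ n → ∀ (K : ℕ → IntermediateField F E)
      (A : ℕ → Multiset ℂ_[p]), Named k F E K A →
        FiniteDimensional (genField (A n))
          (IntermediateField.adjoin (genField (A n)) {w : ℂ_[p] | w ^ p ^ n = 1}) ∧
        Module.finrank (genField (A n))
          (IntermediateField.adjoin (genField (A n)) {w : ℂ_[p] | w ^ p ^ n = 1}) ≤ D := by
  classical
  obtain ⟨D, hD, N₁, hN₁⟩ := tower_bdd k h
  obtain ⟨N₂, hN₂⟩ := H623R3.ZT.taskG p k F E h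
  obtain ⟨N₃, hN₃⟩ := taskF2 p k F E h
  refine ⟨D, hD, max N₁ (max (N₂ + 1) N₃), ?_⟩
  intro n hn K A hKA
  obtain ⟨m, rfl⟩ : ∃ m, n = m + 1 := ⟨n - 1, by omega⟩
  have hm : N₂ ≤ m := by omega
  obtain ⟨s, hs, hfac⟩ := hN₂ K (fun n => (hKA n).1) m hm
  obtain ⟨Φ⟩ := h.group
  obtain ⟨χ₀, hχ₀⟩ := exists_char Φ.toMulEquiv (m + 1)
  have hB : ∀ χ : (E ≃ₐ[F] E) →* ℂ_[p]ˣ, orderOf χ = p ^ (m + 1) →
      ∃ B : Multiset ℂ_[p], Lfun k χ = recipProd B := fun χ hχ =>
    weil p k F E h (m + 1) χ hχ (hN₃ K A hKA (m + 1) χ (by omega) hχ)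
  choose! B hB' using hB
  have hfac2 : recipProd (A (m + 1)) = recipProd (B χ₀) *
      recipProd (A m + ∑ χ ∈ s.erase χ₀, B χ) := by
    rw [← (hKA (m + 1)).2, hfac]
    have h1 : ∏ χ ∈ s, Lfun k χ = recipProd (B χ₀) * recipProd (∑ χ ∈ s.erase χ₀, B χ) := by
      rw [← recipProd_finset, ← Finset.mul_prod_erase s _ ((hs χ₀).2 hχ₀), hB' χ₀ hχ₀]
      congr 1
      refine Finset.prod_congr rfl fun χ hχ => ?_
      exact hB' χ ((hs χ).1 (Finset.mem_of_mem_erase hχ))
    rw [h1, recipProd_add, ← (hKA m).2]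
    ring
  exact hN₁ (m + 1) (by omega) χ₀ hχ₀ (B χ₀) (hB' χ₀ hχ₀) _ (genField_le hfac2)

theorem layer_bdd {p : ℕ} [Fact p.Prime] {k F E : Type} [Field k] [Finite k] [CharP k p]
    [Field F] [Algebra k F] [Field E] [Algebra F E] [Algebra k E] [IsScalarTower k F E]
    (h : IsZpTower k F E p) :
    ∃ D : ℕ, 0 < D ∧ ∃ N : ℕ, ∀ n, N ≤ n → ∀ K : IntermediateField F E,
      Module.finrank F K = p ^ n → ∀ A : Multiset ℂ_[p], RecipRoots p k K A →
        FiniteDimensional (genField A)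
          (IntermediateField.adjoin (genField A) {w : ℂ_[p] | w ^ p ^ n = 1}) ∧
        Module.finrank (genField A)
          (IntermediateField.adjoin (genField A) {w : ℂ_[p] | w ^ p ^ n = 1}) ≤ D := by
  obtain ⟨D, hD, N, hN⟩ := named_bdd h
  refine ⟨D, hD, N, fun n hn K hK A hA => ?_⟩
  obtain ⟨K', A', hNm, rfl, rfl⟩ := exists_family h n K hK A hA
  exact hN n hn K' A' hNm

theorem layer_integral {p : ℕ} [Fact p.Prime] {k F E : Type} [Field k] [Finite k] [CharP k p]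
    [Field F] [Algebra k F] [Field E] [Algebra F E] [Algebra k E] [IsScalarTower k F E]
    (h : IsZpTower k F E p) (n : ℕ) (K : IntermediateField F E) (hK : Module.finrank F K = p ^ n)
    (A : Multiset ℂ_[p]) (hA : RecipRoots p k K A) : ∀ α ∈ A, IsIntegral ℚ_[p] α := by
  obtain ⟨K', A', hNm, hK', hA'⟩ := exists_family h n K hK A hA
  have h1 := isIntegral_of_named h K' A' hNm n
  rwa [hA'] at h1

end Pool.Agent.W90.ZT
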