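import Mathlib
import Pool.Agent.W90.ZT.Glob3

/-!
The degree over `ℚ` of the splitting field of the numerator of the zeta function: final statements.
-/

set_option autoImplicit false

open IntermediateField

namespace Pool.Agent.W90.ZT

open Pool.Agent.H387R3.ZT Pool.Agent.H707R3 Pool.Agent.H412R3.ZT

variable {p : ℕ} [Fact p.Prime] {k F E : Type} [Field k] [Finite k] [CharP k p]
    [Field F] [Algebra k F] [Field E] [Algebra F E] [Algebra k E] [IsScalarTower k F E]

lemma zetaP_eq_zetaR (p : ℕ) [Fact p.Prime] (k K : Type) [Field k] [Field K] [Algebra k K] :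
    zetaP p k K = zetaR ℂ_[p] k K := rfl

theorem exists_roots_complex (h : IsZpTower k F E p) (K : IntermediateField F E) (n : ℕ)
    (hK : Module.finrank F K = p ^ n) :
    ∃ A : Multiset ℂ, zetaR ℂ k K * (1 - PowerSeries.X) *
      (1 - PowerSeries.C (Nat.card k : ℂ) * PowerSeries.X) = rp A := by
  have hfd : FiniteDimensional F K := FiniteDimensional.of_finrank_pos (by
    rw [hK]; exact pow_pos (Fact.out : p.Prime).pos n)
  have hC : IsCurveFunctionField k K := curve_layer h K
  have hd : ∀ v : Place k K, v.deg ≠ 0 := deg_ne_zero hC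
  have hfin : ∀ m, {v : Place k K | v.deg ≤ m}.Finite := finite_deg_le hC
  obtain ⟨B, hB⟩ := exists_roots h K n hK
  have hB' : PowerSeries.map (Int.castRingHom ℂ_[p]) (numZ hfin) = recipProd B := by
    rw [← map_numZ ℂ_[p] hd hfin, ← zetaP_eq_zetaR]
    exact hB
  have hcoef : ∀ j, Multiset.card B < j → PowerSeries.coeff j (numZ hfin) = 0 := by
    intro j hj
    have h1 := coeff_recipProd_eq_zero B j hj
    rw [← hB', PowerSeries.coeff_map] at h1
    have h2 : ((PowerSeries.coeff j (numZ hfin) : ℤ) : ℂ_[p]) = 0 := h1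
    exact_mod_cast h2
  have h0 : PowerSeries.coeff 0 (numZ hfin) = 1 := by
    have h1 := coeff_zero_recipProd B
    rw [← hB', PowerSeries.coeff_map] at h1
    have h2 : ((PowerSeries.coeff 0 (numZ hfin) : ℤ) : ℂ_[p]) = 1 := h1
    exact_mod_cast h2
  rw [map_numZ ℂ hd hfin]
  apply exists_rp _ _ (Multiset.card B + 1)
  · intro j hj
    rw [PowerSeries.coeff_map, hcoef j (by omega), map_zero]
  · rw [PowerSeries.coeff_map, h0, map_one]

theorem global_bdd (h : IsZpTower k F E p) :
    ∃ D : ℕ, 0 < D ∧ ∃ N : ℕ, ∀ n, N ≤ n → ∀ K : IntermediateField F E,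
      Module.finrank F K = p ^ n → ∀ A : Multiset ℂ,
      zetaR ℂ k K * (1 - PowerSeries.X) *
        (1 - PowerSeries.C (Nat.card k : ℂ) * PowerSeries.X) = rp A →
      FiniteDimensional ℚ (IntermediateField.adjoin ℚ {α : ℂ | α ∈ A}) ∧
      FiniteDimensional ℚ (IntermediateField.adjoin ℚ ({α : ℂ | α ∈ A} ∪ {w : ℂ | w ^ p ^ n = 1})) ∧
      Module.finrank ℚ (IntermediateField.adjoin ℚ ({α : ℂ | α ∈ A} ∪ {w : ℂ | w ^ p ^ n = 1})) ≤
        D * Module.finrank ℚ (IntermediateField.adjoin ℚ {α : ℂ | α ∈ A}) ∧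
      Nat.totient (p ^ n) ≤ D * Module.finrank ℚ (IntermediateField.adjoin ℚ {α : ℂ | α ∈ A}) := by
  obtain ⟨D, hD, N, hN⟩ := named_bddQ h
  refine ⟨D, hD, N, fun n hn K hK A hA => ?_⟩
  have hfd : FiniteDimensional F K := FiniteDimensional.of_finrank_pos (by
    rw [hK]; exact pow_pos (Fact.out : p.Prime).pos n)
  have hC : IsCurveFunctionField k K := curve_layer h K
  have hd : ∀ v : Place k K, v.deg ≠ 0 := deg_ne_zero hC
  have hfin : ∀ m, {v : Place k K | v.deg ≤ m}.Finite := finite_deg_le hC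
  apply transport_deg (p := p) (numZ hfin) D n
  · intro B hB M hM z hz
    have hR : RecipRoots p k K B := by
      show zetaP p k K * (1 - PowerSeries.X) *
        (1 - PowerSeries.C (Nat.card k : ℂ_[p]) * PowerSeries.X) = recipProd B
      rw [zetaP_eq_zetaR, map_numZ ℂ_[p] hd hfin]
      exact hB
    obtain ⟨K', A', hNm, hK', hA'⟩ := exists_family h n K hK B hR
    refine hN n hn K' A' hNm M ?_ z hz
    rw [hA']
    exact hM
  · rw [← map_numZ ℂ hd hfin]
    exact hA.symm

end Pool.Agent.W90.ZT
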